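import Mathlib
import Pool.Agent.H960R2.VB.Defs
import Pool.Agent.Q49.RB.T1
import Pool.Agent.Q49.RB.Event

/-!
# The discriminant of the Chern classes of a rank two bundle on `P^n`

For every `ε > 0` and `n ≥ n₀(ε)`: let `E` be a bundle of rank two on `P^n`, with Chern classes
`c₁`, `c₂`.  Then either `c₁ = a + b` and `c₂ = a b` with integers `a`, `b` (`E` has the Chern
classes of `O(a) ⊕ O(b)`), or `|c₁² - 4 c₂| ≥ n ^ (4 √e - ε)`, where `4 √e = 6.59…`.

The proof.  Put `Δ = c₁² - 4 c₂ = s t²`, with `s` squarefree, and let `s ≠ 1`.  The integrality of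
the Euler characteristics of the twists of `E` means that `∑ f(δ_i)` is an integer for all integer
valued polynomials `f` of degree at most `n`, where `δ₁`, `δ₂` are the Chern roots.  Let `p` be an
odd prime, `g` a shifted binomial coefficient of degree `p ^ j`, where `p ^ (2 j)` divides `Δ`.  The
integer valued polynomials `g (g ^ p - g) / p` and `((g ^ p - g) / p) ^ 2` show: if `p` does not
split in `ℚ(√Δ)` then `p ^ v ≥ n / 2`, where `v` is the order of `p` in `Δ`, for all `p ≤ n / 2` and
for all ramified `p`.  So if `|Δ| ≤ n ^ 7` there are at most seven such primes, `s` has at most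
seven odd prime factors, and the quadratic character of conductor dividing `8 s` is equal to one at
all primes `l ≤ n / 2` outside a set of at most eight primes.  By Burgess' bound for short character
sums, with the complete sums estimated by Stepanov's method, and Vinogradov's argument, modified to
allow a bounded number of exceptional primes, this implies `n / 2 ≤ (8 |s|) ^ (1 / (4 √e) + ε)`.
-/

set_option autoImplicit false

namespace Pool.Agent.Results.MP_b01859_ag.ChernDiscriminant

open MvPolynomial H960VB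

/-- the space of the global sections of `E(d)` -/
noncomputable def sections {n : ℕ} (E : Bundle2 n) (d : ℤ) :
    Submodule ℂ (Fin E.a → MvPolynomial (Fin (n + 1)) ℂ) where
  carrier := {G | E.IsSection d G}
  zero_mem' := by
    refine ⟨fun i => Or.inl rfl, fun x _ => ?_⟩
    have : evv (0 : Fin E.a → MvPolynomial (Fin (n + 1)) ℂ) x = 0 := by
      funext i
      simp [evv]
    rw [this]
    exact zero_mem _
  add_mem' := by
    intro G G' hG hG'
    refine ⟨fun i => ?_, fun x hx => ?_⟩
    · rcases hG.1 i with h | ⟨k, hk, h⟩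
      · rw [Pi.add_apply, h, zero_add]
        exact hG'.1 i
      · rcases hG'.1 i with h' | ⟨k', hk', h'⟩
        · rw [Pi.add_apply, h', add_zero]
          exact Or.inr ⟨k, hk, h⟩
        · have : k = k' := by exact_mod_cast hk.trans hk'.symm
          subst this
          exact Or.inr ⟨k, hk, h.add h'⟩
    · have : evv (G + G') x = evv G x + evv G' x := by
        funext i
        simp [evv]
      rw [this]
      exact add_mem (hG.2 x hx) (hG'.2 x hx)
  smul_mem' := by
    intro c G hG
    refine ⟨fun i => ?_, fun x hx => ?_⟩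
    · rcases hG.1 i with h | ⟨k, hk, h⟩
      · left
        rw [Pi.smul_apply, h, smul_zero]
      · right
        refine ⟨k, hk, ?_⟩
        rw [Pi.smul_apply, MvPolynomial.smul_eq_C_mul]
        simpa using (isHomogeneous_C (Fin (n + 1)) c).mul h
    · have : evv (c • G) x = c • evv G x := by
        funext i
        simp [evv]
      rw [this]
      exact Submodule.smul_mem _ c (hG.2 x hx)

/-- the binomial coefficient `x (x - 1) ⋯ (x - m + 1) / m!` of a complex number `x` -/
noncomputable def binomial (x : ℂ) (m : ℕ) : ℂ :=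
  (∏ i ∈ Finset.range m, (x - i)) / (m.factorial : ℂ)

/-- `c₁`, `c₂` are the Chern classes of `E` (more precisely `c₁ h`, `c₂ h²`, with the hyperplane
class `h`), in terms of the Euler characteristics: `χ(E(d)) = h⁰(E(d))` for large `d`, and by
Hirzebruch-Riemann-Roch `χ(E(d))` is the sum of the binomial coefficients `(n + d + δ_i, n)`, with
the Chern roots `δ₁`, `δ₂`. -/
def HasChernClasses {n : ℕ} (E : Bundle2 n) (c₁ c₂ : ℤ) : Prop :=
  ∃ δ₁ δ₂ : ℂ, δ₁ + δ₂ = c₁ ∧ δ₁ * δ₂ = c₂ ∧ ∃ d₀ : ℤ, ∀ d ≥ d₀,
    (Module.finrank ℂ (sections E d) : ℂ) = binomial (n + d + δ₁) n + binomial (n + d + δ₂) n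

theorem result (ε : ℝ) (hε : 0 < ε) : ∃ n₀ : ℕ, ∀ n ≥ n₀, ∀ (E : Bundle2 n) (c₁ c₂ : ℤ),
    HasChernClasses E c₁ c₂ →
      (∃ a b : ℤ, c₁ = a + b ∧ c₂ = a * b) ∨
      (n : ℝ) ^ (4 * Real.sqrt (Real.exp 1) - ε) ≤ |((c₁ ^ 2 - 4 * c₂ : ℤ) : ℝ)| := by
  obtain ⟨n0, hn0⟩ := Pool.Agent.Q49.RB.T1num ε hε
  refine ⟨n0, fun n hn E c₁ c₂ hE => ?_⟩
  obtain ⟨δ₁, δ₂, hs, hm, d₀, hd⟩ := hE
  by_cases hsq : IsSquare (c₁ ^ 2 - 4 * c₂)
  · left
    obtain ⟨t, ht⟩ := hsq
    have h2 : (c₁ - t) * (c₁ + t) = 4 * c₂ := by linarith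
    have hpar : Even (c₁ - t) := by
      by_contra hodd
      rw [Int.not_even_iff_odd] at hodd
      have hodd' : Odd (c₁ + t) := by
        have : c₁ + t = (c₁ - t) + 2 * t := by ring
        rw [this]
        exact hodd.add_even (even_two_mul t)
      have h3 := hodd.mul hodd'
      rw [h2] at h3
      exact (Int.not_even_iff_odd.2 h3) ⟨2 * c₂, by ring⟩
    obtain ⟨u, hu⟩ := hpar
    refine ⟨u, u + t, by linarith, ?_⟩
    have h4 : c₁ + t = 2 * (u + t) := by linarith
    have h5 : c₁ - t = 2 * u := by linarith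
    rw [h4, h5] at h2
    linarith
  · right
    have he : Real.sqrt (Real.exp 1) = Real.exp (1 / 2) := by
      rw [Real.sqrt_eq_rpow, ← Real.exp_mul]
      congr 1
      ring
    rw [he]
    refine hn0 n hn c₁ c₂ ![δ₁, δ₂] (by simpa using hs) (by simpa using hm) ?_ hsq
    refine Pool.Agent.Q49.RB.integral_of_large n _ _ (d₀ + n) fun k hk => ?_
    refine ⟨Module.finrank ℂ (sections E (k - n)), ?_⟩
    have h1 := hd (k - n) (by omega)
    push_cast at h1 ⊢
    rw [h1, Fin.sum_univ_two]
    simp only [Matrix.cons_val_zero, Matrix.cons_val_one, one_mul]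
    unfold binomial Pool.Agent.Q49.RB.bin
    have e1 : (n : ℂ) + ((k : ℂ) - n) + δ₁ = k + δ₁ := by ring
    have e2 : (n : ℂ) + ((k : ℂ) - n) + δ₂ = k + δ₂ := by ring
    rw [e1, e2]

end Pool.Agent.Results.MP_b01859_ag.ChernDiscriminant
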