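import Mathlib
import Pool.Agent.Q42.SF.BLem

/-!
# Few quadratic fields come from rank two bundles on `P^n`

Let `c₁`, `c₂` be the Chern classes of a bundle of rank two on `P^n`, `Δ = c₁² - 4 c₂`, and
`Δ = s t²` with `s` squarefree.  If `s = 1`, they are the Chern classes of a sum of two line bundles.
Otherwise the Chern polynomial `x² - c₁ x + c₂` has the quadratic splitting field `ℚ(√s)`.  For
`X ≤ exp (n ^ c)` at most `X ^ ε` numbers `s` occur with `|Δ| ≤ X`.

The proof: a prime `p ≤ n / 2` which does not split in the field divides `Δ` to a power larger than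
`n / 2` (local analysis of Schwarzenberger's condition), so there are few such primes; a duality
argument (large sieve) on the Jacobi symbols of the products of `k` primes, `k` a large constant
multiple of `log X / log n`, shows that few fields have this property.
-/

set_option autoImplicit false

namespace Pool.Agent.Results.MP_b01859_ag.FewFields

open MvPolynomial H960VB Filter Pool.Agent.Q42.SF.B

theorem result :
    -- the Chern classes of the bundles of rank two satisfy the condition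
    (∀ (n : ℕ) (E : Bundle2 n) (c₁ c₂ : ℤ), HasChernClasses E c₁ c₂ → Schwarzenberger n c₁ c₂) ∧
    -- few fields
    ∀ ε : ℝ, 0 < ε → ∃ c : ℝ, 0 < c ∧ ∃ n₀ : ℕ, ∀ n ≥ n₀, ∀ X : ℝ, 1 ≤ X →
      X ≤ Real.exp ((n : ℝ) ^ c) →
      ∀ S : Finset ℤ, (∀ s ∈ S, Squarefree s ∧ ∃ c₁ c₂ t : ℤ, Schwarzenberger n c₁ c₂ ∧ t ≠ 0 ∧
        c₁ ^ 2 - 4 * c₂ = s * t ^ 2 ∧ |((c₁ ^ 2 - 4 * c₂ : ℤ) : ℝ)| ≤ X) →
          (S.card : ℝ) ≤ X ^ ε := by
  refine ⟨of_bundle, fun ε hε => ?_⟩
  obtain ⟨c, hc, n0, hn0⟩ := Pool.Agent.Q42.SF.fields ε hε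
  refine ⟨c, hc, n0, fun n hn X hX1 hX S hS => hn0 n hn X hX1 hX S fun s hs => ?_⟩
  obtain ⟨h1, c₁, c₂, t, h2, h3⟩ := hS s hs
  exact ⟨h1, c₁, c₂, t, sch n c₁ c₂ h2, h3⟩

end Pool.Agent.Results.MP_b01859_ag.FewFields
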