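import Mathlib
import Pool.Agent.Q42.SF.BLem
import Pool.Agent.Q42.FD.Bun

/-!
# Few second Chern classes of rank two bundles, in an exponential range

Fix the first Chern class `c₁`.  For `X ≤ exp (N ^ a)` every interval of length `X` contains at most
`K X ^ (1/2 + ε)` integers `c₂` for which `c₁`, `c₂` are the Chern classes of a bundle of rank two on
some `P^n`, `n ≥ N`.

The proof: by the exact law of MP_745d3a_ag.ExtensionLaw, `c₁² - 4 c₂` is a square modulo every prime
`p < n`.  So `c₂` lies in about one half of the residue classes modulo `p`, and the large sieve, with the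
products of `k` primes up to `z = X ^ (1 / (2 k))` as moduli, `z ≤ N / 2`, gives the bound.
-/

set_option autoImplicit false

namespace Pool.Agent.Results.MP_b01859_ag.FewSecondClasses

open MvPolynomial H960VB Filter Pool.Agent.Q42.SF.B

theorem result :
    -- the Chern classes of the bundles of rank two satisfy the condition
    (∀ (n : ℕ) (E : Bundle2 n) (c₁ c₂ : ℤ), HasChernClasses E c₁ c₂ → Schwarzenberger n c₁ c₂) ∧
    -- few second Chern classes
    ∀ ε : ℝ, 0 < ε → ∃ a K : ℝ, 0 < a ∧ 0 < K ∧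
      ∀ (N : ℕ) (c₁ M : ℤ) (X : ℕ) (T : Finset ℤ), 1 ≤ X →
        (∀ c₂ ∈ T, M < c₂ ∧ c₂ ≤ M + X ∧ ∃ n ≥ N, Schwarzenberger n c₁ c₂) →
        (X : ℝ) ≤ Real.exp ((N : ℝ) ^ a) →
        (T.card : ℝ) ≤ K * (X : ℝ) ^ (1 / 2 + ε) := by
  refine ⟨of_bundle, fun ε hε => ?_⟩
  obtain ⟨a, K, ha, hK, h⟩ := Pool.Agent.Q42.FD.bun_large ε hε
  refine ⟨a, K, ha, hK, fun N c₁ M X T hX hT hXN => h N c₁ M X T hX (fun m hm => ?_) hXN⟩
  obtain ⟨h1, h2, n, hn, h3⟩ := hT m hm
  exact ⟨h1, h2, n, hn, sch n c₁ m h3⟩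

end Pool.Agent.Results.MP_b01859_ag.FewSecondClasses
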