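import Mathlib
import Pool.Agent.Q42.SF.BLem

/-!
# The rank two bundles on `P^n` with a given splitting field of the Chern polynomial

Let `c₁`, `c₂` be the Chern classes of a bundle of rank two on `P^n`, `Δ = c₁² - 4 c₂`.  If `Δ` is a
square, they are the Chern classes of a sum of two line bundles.  Otherwise the Chern polynomial
`x² - c₁ x + c₂` has a quadratic splitting field `ℚ(√Δ)`.

In a fixed quadratic field `|Δ|` grows exponentially with `n`: it is at least `exp ((1 - ε) n)`, and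
this is exactly what Schwarzenberger's condition (the integrality of the Euler characteristics of the
twists) gives: some pairs `c₁`, `c₂` which satisfy the condition have `|Δ| ≤ exp ((1 + ε) n)`.  The proof
uses the exact law of MP_745d3a_ag.ExtensionLaw, by which `Δ = δ d²` with `d` divisible by high powers of
the primes which are inert or ramified, and the prime number theorem in arithmetic progressions, by
which half of the primes are inert.
-/

set_option autoImplicit false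

namespace Pool.Agent.Results.MP_b01859_ag.SplittingFields

open MvPolynomial H960VB Filter Pool.Agent.Q42.SF.B

theorem result :
    -- the Chern classes of the bundles of rank two satisfy the condition
    (∀ (n : ℕ) (E : Bundle2 n) (c₁ c₂ : ℤ), HasChernClasses E c₁ c₂ → Schwarzenberger n c₁ c₂) ∧
    -- the size of the discriminants in one field
    ∀ δ : ℤ, Fundamental δ → δ ≠ 1 → ∀ ε : ℝ, 0 < ε → ∃ n₀ : ℕ, ∀ n ≥ n₀,
      (∀ c₁ c₂ d : ℤ, Schwarzenberger n c₁ c₂ → d ≠ 0 → c₁ ^ 2 - 4 * c₂ = δ * d ^ 2 →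
        Real.exp ((1 - ε) * n) ≤ |((c₁ ^ 2 - 4 * c₂ : ℤ) : ℝ)|) ∧
      ∃ c₁ c₂ d : ℤ, Schwarzenberger n c₁ c₂ ∧ d ≠ 0 ∧ c₁ ^ 2 - 4 * c₂ = δ * d ^ 2 ∧
        |((c₁ ^ 2 - 4 * c₂ : ℤ) : ℝ)| ≤ Real.exp ((1 + ε) * n) := by
  refine ⟨of_bundle, fun δ hδ h1 ε hε => ?_⟩
  obtain ⟨n0, hn0⟩ := eventually_atTop.1
    ((Pool.Agent.Q42.SF.lower δ hδ h1 ε hε).and (Pool.Agent.Q42.SF.upper δ hδ h1 ε hε))
  refine ⟨n0, fun n hn => ⟨fun c₁ c₂ d hS hd hΔ => ?_, ?_⟩⟩
  · obtain ⟨x, h2, h3, hI⟩ := sch n c₁ c₂ hS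
    have h4 := (Pool.Agent.Q49.RB.law n hδ c₁ c₂ d hΔ x h2 h3).1 hI
    rw [hΔ]
    exact (hn0 n hn).1 d hd h4
  · have hΔ : (δ * (Pool.Agent.Q42.SF.DD δ n : ℤ)) ^ 2 -
        4 * ((Pool.Agent.Q42.SF.DD δ n : ℤ) ^ 2 * ((δ ^ 2 - δ) / 4)) =
        δ * (Pool.Agent.Q42.SF.DD δ n : ℤ) ^ 2 := by
      have := Pool.Agent.Q49.RB.fund_mod hδ
      linear_combination (-(Pool.Agent.Q42.SF.DD δ n : ℤ) ^ 2) * this
    refine ⟨δ * (Pool.Agent.Q42.SF.DD δ n : ℤ),
      (Pool.Agent.Q42.SF.DD δ n : ℤ) ^ 2 * ((δ ^ 2 - δ) / 4), Pool.Agent.Q42.SF.DD δ n, ?_, ?_,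
      hΔ, ?_⟩
    · exact schw_of_divis n δ _ _ _ hδ hΔ (Pool.Agent.Q42.SF.DD_divis δ n)
    · exact_mod_cast (Pool.Agent.Q42.SF.DD_pos δ n).ne'
    · rw [hΔ]
      exact (hn0 n hn).2

end Pool.Agent.Results.MP_b01859_ag.SplittingFields
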